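import Pool.Agent.helper37.NF.Spec

set_option autoImplicit false

namespace Pool.Agent.helper37.NF

open Finset Pool.Agent.NK

theorem BG1_pos (n : ℕ) : 0 < rho (n : ℝ) := by
  unfold rho
  positivity

theorem BG1 (h1 : AVG_stmt) (h2 : BAS_stmt) (h3 : REC_stmt) (h4 : LCX_stmt) : BG1_stmt := by
  intro a b i j s hi hj hs hab
  apply h1 i j (4 * (i + j)) _ (by omega) (by omega) (by omega) _ a b hab
  intro a' b' hab'
  have e1 := h2 a' b' i j (by omega) (by omega) hab'
  have e2 := h4 i j hi hj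
  have e3 : i + j - 2 = s + 1 := by omega
  rw [e3] at e2
  have e4 : ((a'.choose i : ℝ)) * (b'.choose j : ℝ) ≤ 28 * (cc (s + 1) : ℝ) := by
    exact_mod_cast e1.trans e2
  have e5 : (4 * (i + j)).choose (i + j) = cc (s + 3) := by
    rw [hs]
    rfl
  have r1 := h3 (s + 1)
  have r2 := h3 (s + 2)
  have p1 := BG1_pos (s + 1)
  have p2 := BG1_pos (s + 2)
  rw [e5]
  have e6 : (cc (s + 3) : ℝ) = rho ((s + 2 : ℕ) : ℝ) * (rho ((s + 1 : ℕ) : ℝ) * (cc (s + 1) : ℝ)) := by
    rw [← r1]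
    exact r2
  rw [e6]
  refine e4.trans (le_of_eq ?_)
  field_simp

end Pool.Agent.helper37.NF
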