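import Pool.Agent.helper36.NF.Spec

/-! # Row nf:DOM (MP_37e5fa_nt) -/

set_option autoImplicit false

open Polynomial Filter

namespace Pool.Agent.NoFormula

theorem DOM_mono (a : ℤ) (k N : ℕ) : ∀ᶠ m : ℕ in atTop, (N : ℤ) * |a * (m : ℤ) ^ k| ≤ 2 ^ m := by
  have h := tendsto_pow_const_div_const_pow_of_one_lt k (r := (2 : ℝ)) one_lt_two
  have hpos : (0 : ℝ) < 1 / ((N : ℝ) * |(a : ℝ)| + 1) := by positivity
  filter_upwards [h.eventually (gt_mem_nhds hpos)] with m hm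
  have h2 : (0 : ℝ) < 2 ^ m := by positivity
  have hp : (0 : ℝ) < (N : ℝ) * |(a : ℝ)| + 1 := by positivity
  rw [div_lt_div_iff₀ h2 hp, one_mul] at hm
  have h3 : ((N : ℝ) * |(a : ℝ)|) * (m : ℝ) ^ k ≤ 2 ^ m := by
    have : (0 : ℝ) ≤ (m : ℝ) ^ k := by positivity
    nlinarith
  have h4 : (((N : ℤ) * |a * (m : ℤ) ^ k| : ℤ) : ℝ) ≤ ((2 ^ m : ℤ) : ℝ) := by
    push_cast
    rw [abs_mul, abs_of_nonneg (by positivity : (0 : ℝ) ≤ (m : ℝ) ^ k), ← mul_assoc]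
    exact h3
  exact_mod_cast h4

theorem DOM_pol (p : ℤ[X]) : ∀ N : ℕ, ∀ᶠ m : ℕ in atTop, (N : ℤ) * |p.eval (m : ℤ)| ≤ 2 ^ m := by
  induction p using Polynomial.induction_on' with
  | add p q hp hq =>
    intro N
    filter_upwards [hp (2 * N), hq (2 * N)] with m h1 h2
    rw [Polynomial.eval_add]
    have h3 := abs_add_le (p.eval (m : ℤ)) (q.eval (m : ℤ))
    have hN : (0 : ℤ) ≤ N := Nat.cast_nonneg N
    push_cast at h1 h2
    have h4 : (N : ℤ) * |p.eval (m : ℤ) + q.eval (m : ℤ)| ≤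
        (N : ℤ) * (|p.eval (m : ℤ)| + |q.eval (m : ℤ)|) := mul_le_mul_of_nonneg_left h3 hN
    linarith
  | monomial k a =>
    intro N
    filter_upwards [DOM_mono a k N] with m h1
    rw [Polynomial.eval_monomial]
    exact h1

theorem DOM_one (x y : ℤ[X] × (ℕ → ℤ)) (hx : ∀ᶠ m : ℕ in atTop, 0 ≤ x.2 m)
    (hy : ∀ᶠ m : ℕ in atTop, 0 ≤ y.2 m)
    (h : ∃ C : ℤ, ∀ᶠ m : ℕ in atTop, (m : ℤ) - C ≤ x.2 m - y.2 m) (N : ℕ) :
    ∀ᶠ m : ℕ in atTop, (N : ℤ) * |tm y m| ≤ 2 ^ (x.2 m).toNat := by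
  obtain ⟨C, hC⟩ := h
  filter_upwards [hx, hy, hC, DOM_pol y.1 (N * 2 ^ C.toNat), eventually_ge_atTop C.toNat] with m h1 h2 h3 h4 h5
  have e1 : (y.2 m).toNat + (m - C.toNat) ≤ (x.2 m).toNat := by omega
  have e2 : (2 : ℤ) ^ ((y.2 m).toNat + (m - C.toNat)) ≤ 2 ^ (x.2 m).toNat :=
    pow_le_pow_right₀ (by norm_num) e1
  have e3 : (2 : ℤ) ^ m = 2 ^ C.toNat * 2 ^ (m - C.toNat) := by
    rw [← pow_add]
    congr 1
    omega
  have hc : (0 : ℤ) < 2 ^ C.toNat := by positivity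
  have e4 : (N : ℤ) * |y.1.eval (m : ℤ)| ≤ 2 ^ (m - C.toNat) := by
    rw [e3] at h4
    push_cast at h4
    have h6 : 2 ^ C.toNat * ((N : ℤ) * |y.1.eval (m : ℤ)|) ≤ 2 ^ C.toNat * 2 ^ (m - C.toNat) := by
      calc 2 ^ C.toNat * ((N : ℤ) * |y.1.eval (m : ℤ)|) = (N : ℤ) * 2 ^ C.toNat * |y.1.eval (m : ℤ)| := by ring
        _ ≤ _ := h4
    exact le_of_mul_le_mul_left h6 hc
  have hy2 : (0 : ℤ) ≤ 2 ^ (y.2 m).toNat := by positivity
  unfold tm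
  rw [abs_mul, abs_of_nonneg hy2]
  calc (N : ℤ) * (|y.1.eval (m : ℤ)| * 2 ^ (y.2 m).toNat) =
      2 ^ (y.2 m).toNat * ((N : ℤ) * |y.1.eval (m : ℤ)|) := by ring
    _ ≤ 2 ^ (y.2 m).toNat * 2 ^ (m - C.toNat) := mul_le_mul_of_nonneg_left e4 hy2
    _ = 2 ^ ((y.2 m).toNat + (m - C.toNat)) := by rw [pow_add]
    _ ≤ _ := e2

theorem DOM_list (E : ℕ → ℤ) (L : List (ℤ[X] × (ℕ → ℤ))) (hE : ∀ m, 0 ≤ E m)
    (h : ∀ y ∈ L, ∀ N : ℕ, ∀ᶠ m : ℕ in atTop, (N : ℤ) * |tm y m| ≤ E m) :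
    ∀ N : ℕ, ∀ᶠ m : ℕ in atTop, (N : ℤ) * |sm L m| ≤ E m := by
  induction L with
  | nil =>
    intro N
    filter_upwards with m
    simp [sm, hE m]
  | cons y L ih =>
    intro N
    have h1 := h y (by simp) (2 * N)
    have h2 := ih (fun z hz => h z (by simp [hz])) (2 * N)
    filter_upwards [h1, h2] with m g1 g2
    have e : sm (y :: L) m = tm y m + sm L m := by simp [sm]
    rw [e]
    have h3 := abs_add_le (tm y m) (sm L m)
    have hN : (0 : ℤ) ≤ N := Nat.cast_nonneg N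
    push_cast at g1 g2
    have h4 : (N : ℤ) * |tm y m + sm L m| ≤ (N : ℤ) * (|tm y m| + |sm L m|) :=
      mul_le_mul_of_nonneg_left h3 hN
    linarith

theorem DOM : DOM_stmt := by
  intro k x L hNF
  obtain ⟨h1, h2⟩ := hNF
  rw [List.pairwise_cons] at h2
  have hx := (h1 x (by simp)).2.2
  have h3 : ∀ y ∈ L, ∀ N : ℕ, ∀ᶠ m : ℕ in atTop, (N : ℤ) * |tm y m| ≤ 2 ^ (x.2 m).toNat := by
    intro y hy N
    exact DOM_one x y hx (h1 y (by simp [hy])).2.2 (h2.1 y hy) N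
  have h4 := DOM_list (fun m => 2 ^ (x.2 m).toNat) L (fun m => by positivity) h3 2
  filter_upwards [h4] with m hm
  have e : sm (x :: L) m - tm x m = sm L m := by simp [sm]
  rw [e]
  exact_mod_cast hm

end Pool.Agent.NoFormula
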